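import Pool.Agent.AT2.Stmts
import Pool.Agent.Helper49_AT3.CNT

/-! Squad AT2, row UX1: a regular element of order `ℓ ^ a` if the inertial index is smaller
than `ℓ`. -/

open scoped BigOperators

noncomputable section

namespace Pool.Agent.PP.T2.H48

open Pool.Agent.Helper51_AWC Pool.Agent.Helper79_WRA Pool.Agent.PP Pool.Agent.PP.KF
open Pool.Agent.PP.K9 Pool.Agent.PP.K9.H97 Pool.Agent.PP.H75 Pool.Agent.PP.T3

/-- a proper subgroup of a group of order `ℓ ^ (b + 1)` has at most `ℓ ^ b` elements -/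
theorem card_le_of_ne {G : Type} [Group G] [Finite G] {ℓ b : ℕ} (hp : ℓ.Prime) {V W : Subgroup G}
    (hV : Nat.card V = ℓ ^ (b + 1)) (hWV : W ≤ V) (hne : W ≠ V) : Nat.card W ≤ ℓ ^ b := by
  have h1 : Nat.card W ∣ ℓ ^ (b + 1) := by
    rw [← hV]
    exact Subgroup.card_dvd_of_le hWV
  obtain ⟨i, hi, hi2⟩ := (Nat.dvd_prime_pow hp).1 h1
  rw [hi2]
  rcases Nat.lt_or_ge i (b + 1) with h2 | h2
  · exact Nat.pow_le_pow_right hp.pos (by omega)
  · exfalso
    have h3 : i = b + 1 := le_antisymm hi h2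
    have h4 : Nat.card W = Nat.card V := by rw [hi2, h3, hV]
    exact hne (Subgroup.eq_of_le_of_card_ge hWV h4.ge)

/-- the elements of an abelian subgroup with `u ^ n = 1` -/
def Om {G : Type} [Group G] (V : Subgroup G) (hab : ∀ a ∈ V, ∀ b ∈ V, a * b = b * a) (n : ℕ) :
    Subgroup G where
  carrier := {u | u ∈ V ∧ u ^ n = 1}
  one_mem' := ⟨V.one_mem, one_pow n⟩
  mul_mem' := by
    rintro x y ⟨hx, hx2⟩ ⟨hy, hy2⟩
    refine ⟨V.mul_mem hx hy, ?_⟩
    have hc : Commute x y := hab x hx y hy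
    rw [hc.mul_pow, hx2, hy2, one_mul]
  inv_mem' := by
    rintro x ⟨hx, hx2⟩
    refine ⟨V.inv_mem hx, ?_⟩
    rw [inv_pow, hx2, inv_one]

theorem mem_Om {G : Type} [Group G] {V : Subgroup G} {hab : ∀ a ∈ V, ∀ b ∈ V, a * b = b * a}
    {n : ℕ} {u : G} : u ∈ Om V hab n ↔ u ∈ V ∧ u ^ n = 1 := Iff.rfl

theorem ux1 : Ux1Stmt := by
  intro ℓ hℓ F _ hF G _ _ e V γ hL a ha hexp hix
  classical
  have hp : ℓ.Prime := hℓ.out
  set C := Subgroup.centralizer (V : Set G) with hC
  set T := Tg V γ with hT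
  have hCT : C ≤ T := Pool.Agent.PP.T3.H49.cen_le_Tg hL.gam
  have hE : ix V γ = Nat.card (T ⧸ C.subgroupOf T) := rfl
  set E := ix V γ with hEd
  have hE1 : 1 ≤ E := by
    rw [hE]
    exact Nat.card_pos
  haveI := Fintype.ofFinite G
  haveI : Fintype (T ⧸ C.subgroupOf T) := Fintype.ofFinite _
  -- the order of V
  obtain ⟨k, hk⟩ := (IsPGroup.iff_card.1 hL.tp.pg)
  have hk0 : k ≠ 0 := by
    intro h
    rw [h, pow_zero] at hk
    have h1 : V = ⊥ := Subgroup.card_eq_one.1 hk
    have h2 : Monoid.exponent V ∣ 1 := by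
      rw [← hk]
      exact Group.exponent_dvd_nat_card
    rw [hexp] at h2
    have h3 := Nat.dvd_one.1 h2
    have h4 : 1 < ℓ ^ a := Nat.one_lt_pow (by omega) hp.one_lt
    omega
  obtain ⟨b, rfl⟩ := Nat.exists_eq_succ_of_ne_zero hk0
  set v := ℓ ^ b with hv
  have hVb : Nat.card V = ℓ ^ (b + 1) := hk
  have hVv : Nat.card V = ℓ * v := by rw [hk, hv, Nat.succ_eq_add_one, pow_succ, mul_comm]
  have hv1 : 1 ≤ v := Nat.one_le_iff_ne_zero.2 (pow_ne_zero _ hp.ne_zero)
  -- the elements of small order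
  have hOm : Nat.card (Om V hL.ab (ℓ ^ (a - 1))) ≤ v := by
    refine card_le_of_ne hp hVb (fun u hu => (mem_Om.1 hu).1) ?_
    intro h
    have h1 : Monoid.exponent V ∣ ℓ ^ (a - 1) := by
      refine Monoid.exponent_dvd_of_forall_pow_eq_one fun u => ?_
      have h2 : (u : G) ∈ Om V hL.ab (ℓ ^ (a - 1)) := by
        rw [h]
        exact u.2
      apply Subtype.ext
      rw [Subgroup.coe_pow, Subgroup.coe_one]
      exact (mem_Om.1 h2).2
    rw [hexp] at h1
    have h2 := (Nat.pow_dvd_pow_iff_le_right hp.one_lt).1 h1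
    omega
  -- the fixed subgroups
  let W : (T ⧸ C.subgroupOf T) → Subgroup G := fun q => V ⊓ Cu ((q.out : T) : G)
  have hW : ∀ q, q ≠ ((1 : T) : T ⧸ C.subgroupOf T) → Nat.card (W q) ≤ v := by
    intro q hq
    refine card_le_of_ne hp hVb inf_le_left ?_
    intro h5
    apply hq
    have h6 : ((q.out : T) : G) ∈ C := by
      refine Subgroup.mem_centralizer_iff.2 ?_
      intro w hw
      have h7 : w ∈ W q := by
        rw [h5]
        exact hw
      have h8 := (Subgroup.mem_inf.1 h7).2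
      exact (Subgroup.mem_centralizer_iff.1 h8 _ rfl).symm
    have h9 : ((q.out : T) : T ⧸ C.subgroupOf T) = ((1 : T) : T ⧸ C.subgroupOf T) := by
      rw [QuotientGroup.eq, mul_one, Subgroup.inv_mem_iff, Subgroup.mem_subgroupOf]
      exact h6
    rw [← h9]
    exact (Quotient.out_eq' q).symm
  -- the sets
  let A : Finset G := Finset.univ.filter (fun u => u ∈ V)
  let O : Finset G := Finset.univ.filter (fun u => u ∈ Om V hL.ab (ℓ ^ (a - 1)))
  let S : Finset G := (Finset.univ.filter (fun q : T ⧸ C.subgroupOf T =>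
    q ≠ ((1 : T) : T ⧸ C.subgroupOf T))).biUnion
      (fun q => Finset.univ.filter (fun u => u ∈ W q))
  have cardsub : ∀ H : Subgroup G, (Finset.univ.filter (fun u => u ∈ H)).card = Nat.card H := by
    intro H
    rw [← Set.ncard_coe_finset]
    have : ((Finset.univ.filter (fun u : G => u ∈ H) : Finset G) : Set G) = (H : Set G) := by
      ext u
      simp
    rw [this, Set.ncard_eq_toFinset_card' , ← Nat.card_eq_card_toFinset]
    rfl
  have hS : S.card ≤ (E - 1) * v := by
    have h1 : S.card ≤ ∑ q ∈ (Finset.univ.filter (fun q : T ⧸ C.subgroupOf T =>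
        q ≠ ((1 : T) : T ⧸ C.subgroupOf T))), v := by
      refine le_trans Finset.card_biUnion_le (Finset.sum_le_sum fun q hq => ?_)
      rw [cardsub]
      exact hW q (by simpa using hq)
    rw [Finset.sum_const, smul_eq_mul] at h1
    have h2 : (Finset.univ.filter (fun q : T ⧸ C.subgroupOf T =>
        q ≠ ((1 : T) : T ⧸ C.subgroupOf T))).card = E - 1 := by
      rw [Finset.filter_ne', Finset.card_erase_of_mem (Finset.mem_univ _), Finset.card_univ, hE,
        Nat.card_eq_fintype_card]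
    rw [h2] at h1
    exact h1
  have hlt : (O ∪ S).card < A.card := by
    have h1 : (O ∪ S).card ≤ v + (E - 1) * v :=
      le_trans (Finset.card_union_le _ _) (add_le_add (by rw [cardsub]; exact hOm) hS)
    have h2 : A.card = ℓ * v := by rw [← hVv]; exact cardsub V
    have h3 : v + (E - 1) * v = E * v := by
      obtain ⟨E', hE'⟩ : ∃ E', E = E' + 1 := ⟨E - 1, by omega⟩
      rw [hE', Nat.add_sub_cancel]
      ring
    rw [h2]
    refine lt_of_le_of_lt h1 ?_
    rw [h3]
    exact Nat.mul_lt_mul_of_pos_right hix hv1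
  obtain ⟨u, huA, huN⟩ : ∃ u ∈ A, u ∉ O ∪ S := by
    by_contra hcon
    push Not at hcon
    exact absurd (Finset.card_le_card hcon) (not_le.2 hlt)
  have huV : u ∈ V := by simpa [A] using huA
  have huO : u ∉ Om V hL.ab (ℓ ^ (a - 1)) := by
    intro h
    exact huN (Finset.mem_union_left _ (by simp [O, h]))
  have hpow : ¬ u ^ ℓ ^ (a - 1) = 1 := fun h => huO (mem_Om.2 ⟨huV, h⟩)
  refine ⟨u, ⟨huV, ?_, ?_⟩, ?_⟩
  · rintro rfl
    exact hpow (one_pow _)
  · intro t ht
    obtain ⟨htT, htu⟩ := Subgroup.mem_inf.1 ht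
    by_contra htC
    apply huN
    apply Finset.mem_union_right
    let t' : T := ⟨t, htT⟩
    let q : T ⧸ C.subgroupOf T := (t' : T ⧸ C.subgroupOf T)
    have hq : q ≠ ((1 : T) : T ⧸ C.subgroupOf T) := by
      intro h
      rw [QuotientGroup.eq, mul_one, Subgroup.inv_mem_iff, Subgroup.mem_subgroupOf] at h
      exact htC h
    have hc : ((t' : T)⁻¹ * q.out) ∈ C.subgroupOf T := by
      rw [← QuotientGroup.eq]
      exact (Quotient.out_eq' q).symm
    rw [Subgroup.mem_subgroupOf] at hc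
    simp only [S, Finset.mem_biUnion, Finset.mem_filter, Finset.mem_univ, true_and]
    refine ⟨q, hq, ?_⟩
    refine Subgroup.mem_inf.2 ⟨huV, ?_⟩
    rw [Subgroup.mem_centralizer_iff]
    intro w hw
    rw [Set.mem_singleton_iff] at hw
    rw [hw]
    have h2 : u * t = t * u := Subgroup.mem_centralizer_iff.1 htu u rfl
    have h3 := Subgroup.mem_centralizer_iff.1 hc u huV
    have h4 : ((q.out : T) : G) = t * (((t' : T)⁻¹ * q.out : T) : G) := by
      simp [t']
    rw [h4]
    calc t * (((t' : T)⁻¹ * q.out : T) : G) * u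
        = t * ((((t' : T)⁻¹ * q.out : T) : G) * u) := by group
      _ = t * (u * (((t' : T)⁻¹ * q.out : T) : G)) := by rw [h3]
      _ = (t * u) * (((t' : T)⁻¹ * q.out : T) : G) := by group
      _ = (u * t) * (((t' : T)⁻¹ * q.out : T) : G) := by rw [h2]
      _ = u * (t * (((t' : T)⁻¹ * q.out : T) : G)) := by group
  · obtain ⟨a', rfl⟩ : ∃ a', a = a' + 1 := ⟨a - 1, by omega⟩
    rw [Nat.add_sub_cancel] at hpow
    refine orderOf_eq_prime_pow hpow ?_
    have h1 : (⟨u, huV⟩ : V) ^ Monoid.exponent V = 1 := Monoid.pow_exponent_eq_one _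
    rw [hexp] at h1
    have h2 := congrArg (fun x : V => (x : G)) h1
    simpa using h2

end Pool.Agent.PP.T2.H48
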